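import Mathlib
import Pool.Agent.Helper294.OSt.Main
import Pool.Agent.Helper294.Ore.Main
import Pool.Agent.Helper294.Ore.M_cs_noeth

/-!
Orderable abelian-by-nilpotent groups are `O*`-groups, so
they embed in `O*`-groups.
-/

set_option autoImplicit false

namespace Pool.Agent.Results.MP_ab86ea_al.AbelianByNilpotent

/-- `r` is a partial order on the group `G`, invariant under multiplication on both sides. -/
def IsGroupOrder (G : Type) [Group G] (r : G → G → Prop) : Prop :=
  (∀ a, r a a) ∧ (∀ a b, r a b → r b a → a = b) ∧ (∀ a b c, r a b → r b c → r a c) ∧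
    (∀ a b c d, r a b → r (c * a * d) (c * b * d))

/-- `G` is orderable: it has a two-sided invariant total order. -/
def Orderable (G : Type) [Group G] : Prop :=
  ∃ s : G → G → Prop, IsGroupOrder G s ∧ ∀ a b, s a b ∨ s b a

/-- `G` is an `O*`-group: each two-sided invariant partial order extends to a total one. -/
def IsOStar (G : Type) [Group G] : Prop :=
  ∀ r : G → G → Prop, IsGroupOrder G r →
    ∃ s : G → G → Prop, IsGroupOrder G s ∧ (∀ a b, s a b ∨ s b a) ∧ ∀ a b, r a b → s a b

/-- the strict positive cone of an order -/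
theorem cone {G : Type} [Group G] {r : G → G → Prop} (h : IsGroupOrder G r) :
    (∀ a : G, (r 1 a ∧ a ≠ 1) → ∀ b : G, (r 1 b ∧ b ≠ 1) → (r 1 (a * b) ∧ a * b ≠ 1)) ∧
    (∀ a : G, (r 1 a ∧ a ≠ 1) → ∀ g : G, (r 1 (g * a * g⁻¹) ∧ g * a * g⁻¹ ≠ 1)) := by
  obtain ⟨_, h2, h3, h4⟩ := h
  constructor
  · rintro a ⟨ha, ha1⟩ b ⟨hb, hb1⟩
    have e1 : r a (a * b) := by simpa using h4 1 b a 1 hb
    refine ⟨h3 _ _ _ ha e1, fun hab => ?_⟩
    rw [hab] at e1
    exact ha1 (h2 _ _ e1 ha)
  · rintro a ⟨ha, ha1⟩ g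
    refine ⟨by simpa using h4 1 a g g⁻¹ ha, fun hg => ha1 ?_⟩
    have : g * a * g⁻¹ = g * 1 * g⁻¹ := by rw [hg]; simp
    exact mul_left_cancel (mul_right_cancel this)

/-- Every orderable abelian-by-nilpotent group `G` is an `O*`-group; in particular it embeds in an
`O*`-group. -/
theorem result :
    ∀ (G : Type) [Group G],
      (∃ N : Subgroup G, ∃ _hN : N.Normal,
        (∀ a : G, a ∈ N → ∀ b : G, b ∈ N → a * b = b * a) ∧ Group.IsNilpotent (G ⧸ N)) →
      Orderable G →
      IsOStar G ∧ ∃ (H : Type) (_ : Group H) (f : G →* H), Function.Injective f ∧ IsOStar H := by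
  intro G _ hN hO
  have main : IsOStar G := by
    obtain ⟨A, hA, hAab, hnil⟩ := hN
    obtain ⟨t, ht, htt⟩ := hO
    intro r hr
    have ht' := cone ht
    have hr' := cone hr
    have hT1 : ¬ (t 1 (1 : G) ∧ (1 : G) ≠ 1) := fun h => h.2 rfl
    have hR1 : ¬ (r 1 (1 : G) ∧ (1 : G) ≠ 1) := fun h => h.2 rfl
    have hTt : ∀ g : G, g ≠ 1 → g ∈ {a : G | t 1 a ∧ a ≠ 1} ∨ g⁻¹ ∈ {a : G | t 1 a ∧ a ≠ 1} := by
      intro g hg
      rcases htt 1 g with h | h
      · exact Or.inl ⟨h, hg⟩
      · right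
        refine ⟨?_, inv_ne_one.2 hg⟩
        have := ht.2.2.2 g 1 g⁻¹ 1 h
        simpa using this
    obtain ⟨P, hQP, hP, hPt⟩ := H294OStar.general A (fun a ha b hb => hAab a ha b hb) hnil
      (fun Q _ _ _ H => by
        obtain ⟨n, ⟨C⟩⟩ := H294Ore.cs_of_fg_nilpotent Q
        exact H294Ore.cs_noeth C H)
      (fun Q _ _ _ f g hf hg => H294Ore.ore_nat Q f g hf hg)
      {a : G | t 1 a ∧ a ≠ 1} ⟨ht'.1, ht'.2, hT1⟩ hTt
      {a : G | r 1 a ∧ a ≠ 1} ⟨hr'.1, hr'.2, hR1⟩
    refine ⟨fun a b => a = b ∨ a⁻¹ * b ∈ P, ⟨fun a => Or.inl rfl, ?_, ?_, ?_⟩, ?_, ?_⟩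
    · rintro a b (h | h) (h' | h')
      · exact h
      · exact h
      · exact h'.symm
      · exfalso
        have := hP.mul _ h _ h'
        rw [show a⁻¹ * b * (b⁻¹ * a) = 1 by group] at this
        exact hP.one this
    · rintro a b c (rfl | h) (rfl | h')
      · exact Or.inl rfl
      · exact Or.inr h'
      · exact Or.inr h
      · right
        have := hP.mul _ h _ h'
        rwa [show a⁻¹ * b * (b⁻¹ * c) = a⁻¹ * c by group] at this
    · rintro a b c d (rfl | h)
      · exact Or.inl rfl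
      · right
        have := hP.conj _ h d⁻¹
        rwa [show d⁻¹ * (a⁻¹ * b) * d⁻¹⁻¹ = (c * a * d)⁻¹ * (c * b * d) by group] at this
    · intro a b
      by_cases hab : a = b
      · exact Or.inl (Or.inl hab)
      · have hne : a⁻¹ * b ≠ 1 := fun h => hab (by
          have := congrArg (fun z => a * z) h
          simpa using this.symm)
        rcases hPt _ hne with h | h
        · exact Or.inl (Or.inr h)
        · right
          right
          rwa [show (a⁻¹ * b)⁻¹ = b⁻¹ * a by group] at h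
    · intro a b hab
      by_cases h : a = b
      · exact Or.inl h
      · right
        apply hQP
        refine ⟨?_, fun h' => h ?_⟩
        · have := hr.2.2.2 a b a⁻¹ 1 hab
          simpa using this
        · have := congrArg (fun z => a * z) h'
          simpa using this.symm
  exact ⟨main, G, inferInstance, MonoidHom.id G, fun _ _ h => h, main⟩

end Pool.Agent.Results.MP_ab86ea_al.AbelianByNilpotent
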